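import Pool.Agent.Helper19.SDim.Spec

/-!
# Part ONE: in dimension one the solutions are bounded, so they have no singular points
-/

noncomputable section

open MeasureTheory Filter Set Metric
open scoped Topology ENNReal NNReal RealInnerProductSpace ContDiff Gradient

namespace Helper10.SDim

open Helper19.SDim

theorem norm_gradient {N : ℕ} (φ : E N → ℝ) (x : E N) : ‖∇ φ x‖ = ‖fderiv ℝ φ x‖ := by
  rw [gradient]
  exact LinearIsometryEquiv.norm_map _ _

theorem tsupport_gradient {N : ℕ} (φ : E N → ℝ) (x : E N) (hx : x ∉ tsupport φ) :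
    ∇ φ x = 0 := by
  rw [gradient]
  have h : fderiv ℝ φ x = 0 := by
    by_contra h
    exact hx (support_fderiv_subset ℝ (by simpa [Function.mem_support] using h))
  rw [h, map_zero]

theorem pointwise {φ : E 1 → ℝ} (hφ : ContDiff ℝ 1 φ) (hc : HasCompactSupport φ) (x : E 1) :
    ‖φ x‖ₑ ≤ ∫⁻ y, ‖∇ φ y‖ₑ := by
  let e : ℝ ≃ₗᵢ[ℝ] E 1 := (OrthonormalBasis.singleton (Fin 1) ℝ).repr
  have hg : ContDiff ℝ 1 (fun t => φ (e t)) := hφ.comp e.contDiff
  have hgc : HasCompactSupport (fun t => φ (e t)) :=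
    hc.comp_homeomorph e.toHomeomorph
  have h1 := HasCompactSupport.enorm_le_lintegral_Ici_deriv hg hgc (e.symm x)
  have h2 : ∀ t, ‖deriv (fun t => φ (e t)) t‖ₑ ≤ ‖∇ φ (e t)‖ₑ := by
    intro t
    have hd : HasDerivAt (fun t => φ (e t)) (fderiv ℝ φ (e t) (e 1)) t := by
      have hf : HasFDerivAt φ (fderiv ℝ φ (e t)) (e t) :=
        (hφ.differentiable one_ne_zero (e t)).hasFDerivAt
      have he : HasDerivAt (fun t => e t) (e 1) t := by
        have := (e.toContinuousLinearEquiv.hasFDerivAt (x := t)).hasDerivAt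
        simpa using this
      exact hf.comp_hasDerivAt t he
    rw [hd.deriv]
    rw [← ofReal_norm, ← ofReal_norm, norm_gradient]
    apply ENNReal.ofReal_le_ofReal
    refine (ContinuousLinearMap.le_opNorm _ _).trans ?_
    rw [e.norm_map]
    simp
  calc ‖φ x‖ₑ = ‖φ (e (e.symm x))‖ₑ := by rw [e.apply_symm_apply]
    _ ≤ ∫⁻ y in Iic (e.symm x), ‖deriv (fun t => φ (e t)) y‖ₑ := h1
    _ ≤ ∫⁻ y, ‖deriv (fun t => φ (e t)) y‖ₑ := setLIntegral_le_lintegral _ _
    _ ≤ ∫⁻ t, ‖∇ φ (e t)‖ₑ := lintegral_mono h2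
    _ = ∫⁻ y, ‖∇ φ y‖ₑ := by
        have hm : MeasurePreserving e volume volume := e.measurePreserving
        exact hm.lintegral_comp_emb e.toHomeomorph.measurableEmbedding (fun y => ‖∇ φ y‖ₑ)

theorem one_thm : S_ONE := by
  intro p Ω u hp hΩ hb hu
  obtain ⟨G, F, ⟨hmu, hmG, φ, hφ, hu0, hG0⟩, hF, hE⟩ := hu
  set μ : Measure (E 1) := volume.restrict Ω with hμ
  have hfin : volume Ω < ⊤ := hb.measure_lt_top
  have hμu : μ univ ≠ ⊤ := by
    rw [hμ, Measure.restrict_apply_univ]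
    exact hfin.ne
  have hP0 : ENNReal.ofReal p ≠ 0 := by
    simp only [ne_eq, ENNReal.ofReal_eq_zero, not_le]
    linarith
  have hP1 : (1 : ℝ≥0∞) ≤ ENNReal.ofReal p := by
    rw [← ENNReal.ofReal_one]
    exact ENNReal.ofReal_le_ofReal hp.le
  have hc1 : ∀ n, ContDiff ℝ 1 (φ n) := fun n => (hφ n).1.of_le (by exact_mod_cast le_top)
  have hgc : ∀ n, Continuous (fun x => ∇ (φ n) x) := by
    intro n
    have : Continuous (fun x => fderiv ℝ (φ n) x) := (hc1 n).continuous_fderiv one_ne_zero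
    unfold gradient
    exact (LinearIsometryEquiv.continuous _).comp this
  -- a uniform bound for `φ n`
  have hbd : ∃ M : ℝ≥0∞, M ≠ ⊤ ∧ ∀ᶠ n in atTop, ∀ x, ‖φ n x‖ₑ ≤ M := by
    refine ⟨(1 + eLpNorm G (ENNReal.ofReal p) μ) *
      μ univ ^ (1 / (1 : ℝ≥0∞).toReal - 1 / (ENNReal.ofReal p).toReal), ?_, ?_⟩
    · refine ENNReal.mul_ne_top (ENNReal.add_ne_top.2 ⟨ENNReal.one_ne_top, hmG.2.ne⟩) ?_
      refine ENNReal.rpow_ne_top_of_nonneg ?_ hμu
      rw [ENNReal.toReal_ofReal (by linarith)]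
      simp only [ENNReal.toReal_one, div_one, sub_nonneg]
      rw [div_le_one (by linarith)]
      exact hp.le
    · have h1 : ∀ᶠ n in atTop,
          eLpNorm (fun x => ∇ (φ n) x - G x) (ENNReal.ofReal p) μ < 1 :=
        hG0.eventually_lt_const (by simp)
      filter_upwards [h1] with n hn x
      refine (pointwise (hc1 n) (hφ n).2.1 x).trans ?_
      have h2 : ∫⁻ y, ‖∇ (φ n) y‖ₑ = ∫⁻ y in Ω, ‖∇ (φ n) y‖ₑ := by
        symm
        refine setLIntegral_eq_of_support_subset ?_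
        intro y hy
        by_contra hyΩ
        apply hy
        have : ∇ (φ n) y = 0 := tsupport_gradient _ _ (fun h => hyΩ ((hφ n).2.2 h))
        simp [this]
      rw [h2]
      have h3 : ∫⁻ y in Ω, ‖∇ (φ n) y‖ₑ = eLpNorm (fun y => ∇ (φ n) y) 1 μ := by
        rw [eLpNorm_one_eq_lintegral_enorm]
      rw [h3]
      refine (eLpNorm_le_eLpNorm_mul_rpow_measure_univ hP1
        (hgc n).aestronglyMeasurable).trans ?_
      gcongr
      calc eLpNorm (fun y => ∇ (φ n) y) (ENNReal.ofReal p) μ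
          = eLpNorm ((fun y => ∇ (φ n) y - G y) + G) (ENNReal.ofReal p) μ := by
            congr 1
            ext1 y
            simp
        _ ≤ eLpNorm (fun y => ∇ (φ n) y - G y) (ENNReal.ofReal p) μ +
            eLpNorm G (ENNReal.ofReal p) μ :=
            eLpNorm_add_le ((hgc n).aestronglyMeasurable.sub hmG.1) hmG.1 hP1
        _ ≤ 1 + eLpNorm G (ENNReal.ofReal p) μ := by gcongr
  obtain ⟨M, hM, hMn⟩ := hbd
  -- `u` is bounded almost everywhere
  have hub : ∀ᵐ x ∂μ, u x ≤ M.toReal := by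
    have h1 : TendstoInMeasure μ φ atTop u :=
      tendstoInMeasure_of_tendsto_eLpNorm hP0
        (fun n => (hc1 n).continuous.aestronglyMeasurable) hmu.1 hu0
    obtain ⟨ns, hns, hae⟩ := h1.exists_seq_tendsto_ae
    filter_upwards [hae] with x hx
    refine le_of_tendsto hx ?_
    filter_upwards [hns.tendsto_atTop.eventually hMn] with n hn
    have h2 := hn x
    rw [← ofReal_norm] at h2
    have h3 : ‖φ (ns n) x‖ ≤ M.toReal := by
      rw [← ENNReal.ofReal_le_iff_le_toReal hM]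
      exact h2
    exact (le_abs_self _).trans h3
  -- conclusion
  rw [Set.eq_empty_iff_forall_notMem]
  rintro a ⟨haΩ, C, γ, r, hC, hγ, hr, hball, hae⟩
  -- a small radius
  have hlim : Tendsto (fun t : ℝ => C * t ^ (-γ)) (𝓝[>] 0) atTop :=
    (tendsto_rpow_neg_nhdsGT_zero (by linarith)).const_mul_atTop hC
  have hev := hlim.eventually_gt_atTop (M.toReal)
  rw [eventually_nhdsWithin_iff] at hev
  obtain ⟨ε, hε, hεb⟩ := Metric.eventually_nhds_iff.1 hev
  set s := min r ε with hs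
  have hs0 : 0 < s := lt_min hr hε
  have h1 : ∀ᵐ x ∂(volume.restrict (ball a s)), C * ‖x - a‖ ^ (-γ) ≤ u x :=
    ae_restrict_of_ae_restrict_of_subset (ball_subset_ball (min_le_left _ _)) hae
  have h2 : ∀ᵐ x ∂(volume.restrict (ball a s)), u x ≤ M.toReal :=
    ae_restrict_of_ae_restrict_of_subset
      ((ball_subset_ball (min_le_left _ _)).trans hball) hub
  have h3 : ∀ᵐ x ∂(volume.restrict (ball a s)), x ∈ ball a s :=
    ae_restrict_mem measurableSet_ball
  have h4 : ∀ᵐ x ∂(volume.restrict (ball a s)), x ≠ a :=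
    ae_restrict_of_ae (by simp [ae_iff])
  have h5 : ∀ᵐ x ∂(volume.restrict (ball a s)), False := by
    filter_upwards [h1, h2, h3, h4] with x hx1 hx2 hx3 hx4
    have hpos : 0 < ‖x - a‖ := norm_pos_iff.2 (sub_ne_zero.2 hx4)
    have hlt : ‖x - a‖ < ε := by
      rw [mem_ball, dist_eq_norm] at hx3
      exact hx3.trans_le (min_le_right _ _)
    have := hεb (y := ‖x - a‖) (by rw [Real.dist_eq, sub_zero, abs_of_pos hpos]; exact hlt) hpos
    linarith
  rw [Filter.eventually_false_iff_eq_bot, ae_eq_bot, Measure.restrict_eq_zero] at h5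
  exact (measure_ball_pos volume a hs0).ne' h5

end Helper10.SDim
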